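import Pool.Agent.Helper48.OD.St

set_option autoImplicit false

namespace Pool.Agent.Helper81.OD

open Pool.Agent.Helper43.GD Pool.Agent.Helper48.OD

theorem hEG (h1 : StUP) : StEG := by
  intro a L A _ _ Q x v hE hx hv
  obtain ⟨hfin, ha3, ⟨k, hk, hxk⟩, hva, hnx, htwo, huv, hgx, hgx2, hgv⟩ := hE
  have up := h1.1 L A Q
  have v2a : v ^ (2 ^ a) = 1 := by
    have e : 2 ^ a = 2 ^ (a - 1) * 2 := by
      rw [← pow_succ, Nat.sub_add_cancel (by omega)]
    rw [e, pow_mul, hva]
    simp
  have gx : Gd Q x := up v x k hv hgv hx hxk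
  have hev : Even (2 ^ (a - 1)) := (Nat.even_pow' (by omega)).2 even_two
  have gnx : Gd Q (-x) := by
    refine up v (-x) (k * (1 + 2 ^ (a - 1))) hv hgv (neg_mem Q hx) ?_
    rw [pow_mul, hk.neg_pow, hxk, (odd_one.add_even hev).neg_pow, pow_add, hva]
    simp
  have gx2 : Gd Q (x ^ 2) := by
    refine ⟨Q.U.pow_mem hx 2, ?_⟩
    have e : 1 - ((x ^ 2 : Lˣ) : L) = (1 - (x : L)) * (1 - ((-x : Lˣ) : L)) := by
      rw [Units.val_pow_eq_pow_val, Units.val_neg]
      ring
    rw [e]
    exact in_mul Q gx.2 gnx.2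
  refine ⟨gx, fun ι hι hι2 => ?_, ?_⟩
  · refine up (x ^ 2) (ι * x) 2 gx2 hgx2 (Q.U.mul_mem hι hx) ?_
    rw [mul_pow, hι2, one_mul]
  · have key : ∀ s i : ℕ, Odd i → s < a → Gd Q (v ^ (2 ^ s * i)) := by
      intro s
      induction s with
      | zero =>
        intro i hi _
        rw [pow_zero, one_mul]
        have hc : Nat.Coprime i (2 ^ a) := Nat.Coprime.pow_right a (Nat.coprime_two_right.2 hi)
        obtain ⟨n, -, hn⟩ := Nat.exists_mul_mod_eq_one_of_coprime hc
          (Nat.one_lt_two_pow (by omega))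
        refine up v (v ^ i) n hv hgv (Q.U.pow_mem hv.1 i) ?_
        rw [← pow_mul]
        have h2 := Nat.div_add_mod (i * n) (2 ^ a)
        rw [hn] at h2
        rw [← h2, pow_add, pow_mul, v2a, one_pow, pow_one, one_mul]
      | succ s ih =>
        intro i hi hs
        have g1 := ih i hi (by omega)
        have hodd : Odd (i + 2 ^ (a - 1 - s)) :=
          hi.add_even ((Nat.even_pow' (by omega)).2 even_two)
        have g2 := ih (i + 2 ^ (a - 1 - s)) hodd (by omega)
        have e2 : v ^ (2 ^ s * (i + 2 ^ (a - 1 - s))) = -(v ^ (2 ^ s * i)) := by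
          have e3 : 2 ^ s * (i + 2 ^ (a - 1 - s)) = 2 ^ s * i + 2 ^ (a - 1) := by
            rw [mul_add, ← pow_add]
            congr 2
            omega
          rw [e3, pow_add, hva]
          simp
        rw [e2] at g2
        refine ⟨Q.U.pow_mem hv.1 _, ?_⟩
        have e : 1 - ((v ^ (2 ^ (s + 1) * i) : Lˣ) : L) =
            (1 - ((v ^ (2 ^ s * i) : Lˣ) : L)) * (1 - ((-(v ^ (2 ^ s * i)) : Lˣ) : L)) := by
          have e4 : 2 ^ (s + 1) * i = (2 ^ s * i) * 2 := by ring
          rw [e4, pow_mul, Units.val_pow_eq_pow_val, Units.val_neg]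
          ring
        rw [e]
        exact in_mul Q g1.2 g2.2
    intro j hj
    have hj0 : j ≠ 0 := by
      rintro rfl
      exact hj (pow_zero v)
    obtain ⟨s, i, hi, he⟩ := Nat.exists_eq_two_pow_mul_odd hj0
    rw [he]
    refine key s i hi ?_
    by_contra hs
    apply hj
    have e5 : j = 2 ^ a * (2 ^ (s - a) * i) := by
      rw [he, ← mul_assoc, ← pow_add]
      congr 2
      omega
    rw [e5, pow_mul, v2a, one_pow]

end Pool.Agent.Helper81.OD
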